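import Pool.Agent.H77.BD.Targets

set_option autoImplicit false

namespace Pool.Agent.H86.BCT

open Set Matrix Pool.Agent.H77.BC Pool.Agent.H77.BD

theorem pf_CNT (hSCA : T_SCA) : T_CNT := by
  classical
  intro l C hC
  have := finRoot hC
  have : Fintype (Root C) := Fintype.ofFinite _
  obtain ⟨c, hc⟩ := hSCA hC
  simp only [finsum_eq_sum_of_fintype] at hc
  rcases isEmpty_or_nonempty (Root C) with hE | ⟨⟨α0⟩⟩
  · have hl : l = 0 := by
      by_contra hl
      exact hE.elim (sr hC ⟨0, Nat.pos_of_ne_zero hl⟩)
    subst hl
    refine ⟨0, fun α => (hE.elim α), ?_⟩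
    simp
  -- the number of the roots with product 1
  set N : Root C → ℕ := fun α => (Finset.univ.filter (fun β : Root C => ip C β.1 α.1 = 1)).card
    with hN
  have hneg : ∀ α : Root C, (Finset.univ.filter (fun β : Root C => ip C β.1 α.1 = -1)).card = N α := by
    intro α
    rw [hN]
    apply Finset.card_bij' (fun β _ => ng β) (fun β _ => ng β)
    · intro β hβ
      rw [Finset.mem_filter] at hβ ⊢
      refine ⟨Finset.mem_univ _, ?_⟩
      rw [ng_val, ip_neg_left, hβ.2]
      norm_num
    · intro β hβ
      rw [Finset.mem_filter] at hβ ⊢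
      refine ⟨Finset.mem_univ _, ?_⟩
      rw [ng_val, ip_neg_left, hβ.2]
    · intro β _
      apply Subtype.ext
      simp
    · intro β _
      apply Subtype.ext
      simp
  have hsum : ∀ α : Root C, (c : ℤ) = 8 + 2 * (N α : ℤ) := by
    intro α
    have hng : ng α ≠ α := by
      intro h
      have h1 : (ng α).1 = α.1 := by rw [h]
      have h2 : ip C (ng α).1 α.1 = 2 := by rw [h1]; exact ip_self α
      rw [ng_val, ip_neg_left, ip_self] at h2
      norm_num at h2
    have h1 : ∀ β : Root C, ip C β.1 α.1 * ip C β.1 α.1 =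
        (if β = α then 4 else 0) + (if β = ng α then 4 else 0) +
        (if ip C β.1 α.1 = 1 then 1 else 0) + (if ip C β.1 α.1 = -1 then 1 else 0) := by
      intro β
      by_cases h1 : β = α
      · subst h1
        rw [if_pos rfl, if_neg hng.symm, ip_self]
        norm_num
      · by_cases h2 : β = ng α
        · have h3 : ip C β.1 α.1 = -2 := by rw [h2, ng_val, ip_neg_left, ip_self]
          rw [if_neg h1, if_pos h2, h3]
          norm_num
        · have h3 := ip_le_one hC β α h1
          have h4 : -1 ≤ ip C β.1 α.1 := by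
            apply neg_one_le_ip hC
            intro h
            apply h2
            apply Subtype.ext
            rw [ng_val, h, neg_neg]
          have h5 : ip C β.1 α.1 = -1 ∨ ip C β.1 α.1 = 0 ∨ ip C β.1 α.1 = 1 := by omega
          rcases h5 with h5 | h5 | h5 <;> rw [if_neg h1, if_neg h2, h5] <;> norm_num
    have h2 := hc α.1 α.1
    rw [Finset.sum_congr rfl (fun β _ => h1 β), Finset.sum_add_distrib, Finset.sum_add_distrib,
      Finset.sum_add_distrib, Finset.sum_ite_eq' Finset.univ α, Finset.sum_ite_eq' Finset.univ (ng α),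
      if_pos (Finset.mem_univ _), if_pos (Finset.mem_univ _), Finset.sum_boole, Finset.sum_boole,
      ip_self] at h2
    have h3 : ((Finset.univ.filter (fun β : Root C => ip C β.1 α.1 = -1)).card : ℤ) = N α := by
      rw [hneg α]
    have h4 : ((Finset.univ.filter (fun β : Root C => ip C β.1 α.1 = 1)).card : ℤ) = N α := rfl
    rw [h3, h4] at h2
    linarith
  have heven : ∀ α : Root C, Even (N α) := by
    intro α
    rw [← ZMod.natCast_eq_zero_iff_even]
    have h1 : ((N α : ℕ) : ZMod 2) =
        ∑ β ∈ Finset.univ.filter (fun β : Root C => ip C β.1 α.1 = 1), (1 : ZMod 2) := by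
      rw [Finset.sum_const, nsmul_eq_mul, mul_one]
    rw [h1]
    have hs : ∀ β ∈ Finset.univ.filter (fun β : Root C => ip C β.1 α.1 = 1),
        ip C α.1 β.1 = 1 := by
      intro β hβ
      rw [ip_comm hC]
      exact (Finset.mem_filter.1 hβ).2
    refine Finset.sum_involution (fun β hβ => sb hC α β (hs β hβ)) ?_ ?_ ?_ ?_
    · intro β _
      decide
    · intro β hβ _ heq
      have h2 : α.1 - β.1 = β.1 := by
        have := congrArg Subtype.val heq
        rwa [sb_val] at this
      have h3 : ip C (α.1 - β.1) β.1 = ip C β.1 β.1 := by rw [h2]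
      rw [ip_sub_left, hs β hβ, ip_self] at h3
      norm_num at h3
    · intro β hβ
      rw [Finset.mem_filter]
      refine ⟨Finset.mem_univ _, ?_⟩
      rw [sb_val, ip_sub_left, ip_self, (Finset.mem_filter.1 hβ).2]
      norm_num
    · intro β hβ
      apply Subtype.ext
      rw [sb_val, sb_val]
      abel
  obtain ⟨k, hk⟩ := heven α0
  have hk0 : (c : ℤ) = 8 + 4 * (k : ℤ) := by
    have h1 := hsum α0
    rw [hk] at h1
    push_cast at h1
    linarith
  refine ⟨k, ?_, ?_⟩
  · intro α
    have h1 := hsum α
    have h2 : (N α : ℤ) = 2 * k := by linarith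
    have h3 : N α = 2 * k := by exact_mod_cast h2
    rw [← h3, hN, Nat.card_eq_fintype_card, Fintype.card_subtype]
  · rw [Nat.card_eq_fintype_card]
    -- coordinates
    have hz : ∀ i : Fin l, 2 * ∑ β : Root C, ip C β.1 (si i) * β.1 i = c := by
      intro i
      set z : Fin l → ℤ := (2 : ℤ) • (∑ β : Root C, ip C β.1 (si i) • β.1) - c • si i with hz
      have hsumip : ∀ w, ip C (∑ β : Root C, ip C β.1 (si i) • β.1) w =
          ∑ β : Root C, ip C β.1 (si i) * ip C β.1 w := by
        intro w
        have hs : ∀ s : Finset (Root C), ip C (∑ β ∈ s, ip C β.1 (si i) • β.1) w =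
            ∑ β ∈ s, ip C β.1 (si i) * ip C β.1 w := by
          intro s
          induction s using Finset.induction_on with
          | empty => simp
          | insert a s ha ih =>
            rw [Finset.sum_insert ha, Finset.sum_insert ha, ip_add_left, ih, ip_smul_left]
        exact hs Finset.univ
      have h1 : ∀ w, ip C z w = 0 := by
        intro w
        rw [hz, ip_sub_left, ip_smul_left, ip_smul_left, hsumip w, hc (si i) w]
        ring
      have h2 : z = 0 := by
        by_contra hne
        have := hC.pos z hne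
        rw [h1 z] at this
        exact lt_irrefl _ this
      have h3 : z i = 0 := by rw [h2]; rfl
      rw [hz] at h3
      simp only [Pi.sub_apply, Pi.smul_apply, smul_eq_mul, Finset.sum_apply, si,
        Pi.single_eq_same, mul_one] at h3
      have h4 : 2 * ∑ β : Root C, ip C β.1 (Pi.single i 1) * β.1 i = c := by linarith
      exact h4
    have htot : 2 * ∑ i : Fin l, ∑ β : Root C, ip C β.1 (si i) * β.1 i = l * c := by
      rw [Finset.mul_sum, Finset.sum_congr rfl (fun i _ => hz i), Finset.sum_const, Finset.card_univ,
        Fintype.card_fin, nsmul_eq_mul]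
    rw [Finset.sum_comm] at htot
    have h5 : ∀ β : Root C, ∑ i, ip C β.1 (si i) * β.1 i = 2 := by
      intro β
      have h6 := ip_eq_sum_right (C := C) β.1 β.1
      rw [ip_self] at h6
      refine Eq.trans ?_ h6.symm
      exact Finset.sum_congr rfl fun i _ => mul_comm _ _
    rw [Finset.sum_congr rfl (fun β _ => h5 β), Finset.sum_const, Finset.card_univ, nsmul_eq_mul,
      hk0] at htot
    have h7 : ((Fintype.card (Root C) : ℕ) : ℤ) = l * (k + 2) := by
      linarith
    exact_mod_cast h7

end Pool.Agent.H86.BCT
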