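import Pool.Agent.H77.BD.Targets

set_option autoImplicit false

namespace Pool.Agent.H86.BCT

open Set Matrix Pool.Agent.H77.BC Pool.Agent.H77.BD

variable {l : ℕ} {C : Matrix (Fin l) (Fin l) ℤ}

/-- the reflection -/
def refl (C : Matrix (Fin l) (Fin l) ℤ) (i : Fin l) (v : Fin l → ℤ) : Fin l → ℤ :=
  v - ip C v (si i) • si i

lemma ip_si_self (hC : Cartan C) (i : Fin l) : ip C (si i) (si i) = 2 := by
  rw [ip_si_si, hC.diag]

lemma refl_ip (hC : Cartan C) (i : Fin l) (v w : Fin l → ℤ) :
    ip C (refl C i v) (refl C i w) = ip C v w := by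
  unfold refl
  rw [ip_sub_left, ip_sub_right, ip_sub_right, ip_smul_left, ip_smul_left, ip_smul_right,
    ip_smul_right, ip_si_self hC, ip_comm hC (si i) w]
  ring

lemma refl_refl (hC : Cartan C) (i : Fin l) (v : Fin l → ℤ) : refl C i (refl C i v) = v := by
  have h : ip C (refl C i v) (si i) = - ip C v (si i) := by
    unfold refl
    rw [ip_sub_left, ip_smul_left, ip_si_self hC]
    ring
  have h2 : refl C i (refl C i v) = refl C i v - ip C (refl C i v) (si i) • si i := rfl
  rw [h2, h]
  unfold refl
  simp

/-- the reflection as a permutation of the roots -/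
def reflE (hC : Cartan C) (i : Fin l) : Root C ≃ Root C where
  toFun := fun β => ⟨refl C i β.1, by rw [refl_ip hC]; exact β.2⟩
  invFun := fun β => ⟨refl C i β.1, by rw [refl_ip hC]; exact β.2⟩
  left_inv := fun β => Subtype.ext (refl_refl hC i β.1)
  right_inv := fun β => Subtype.ext (refl_refl hC i β.1)

theorem pf_SCA : T_SCA := by
  intro l C hC
  have := finRoot hC
  have : Fintype (Root C) := Fintype.ofFinite _
  simp only [finsum_eq_sum_of_fintype]
  set T : (Fin l → ℤ) → (Fin l → ℤ) → ℤ := fun v w => ∑ β : Root C, ip C β.1 v * ip C β.1 w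
    with hT
  have hTc : ∀ v w, T v w = T w v := fun v w => Finset.sum_congr rfl fun β _ => mul_comm _ _
  have hinv : ∀ i v w, T (refl C i v) (refl C i w) = T v w := by
    intro i v w
    have h1 : ∀ (β : Root C) (u : Fin l → ℤ), ip C β.1 (refl C i u) = ip C (reflE hC i β).1 u := by
      intro β u
      have h2 := refl_ip hC i β.1 (refl C i u)
      rw [refl_refl hC] at h2
      exact h2.symm
    calc T (refl C i v) (refl C i w)
        = ∑ β : Root C, ip C (reflE hC i β).1 v * ip C (reflE hC i β).1 w := by
          refine Finset.sum_congr rfl fun β _ => ?_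
          rw [h1 β v, h1 β w]
      _ = T v w := Equiv.sum_comp (reflE hC i) (fun β : Root C => ip C β.1 v * ip C β.1 w)
  have hsi : ∀ i w, 2 * T (si i) w = ip C w (si i) * T (si i) (si i) := by
    intro i w
    have h1 := hinv i (si i) w
    have h2 : refl C i (si i) = - si i := by
      unfold refl
      rw [ip_si_self hC]
      funext j
      simp only [Pi.sub_apply, Pi.smul_apply, smul_eq_mul, Pi.neg_apply]
      ring
    have h3 : T (refl C i (si i)) (refl C i w) =
        - T (si i) w + ip C w (si i) * T (si i) (si i) := by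
      rw [h2, hT]
      simp only
      rw [Finset.mul_sum, ← Finset.sum_neg_distrib, ← Finset.sum_add_distrib]
      refine Finset.sum_congr rfl fun β _ => ?_
      unfold refl
      rw [ip_neg_right, ip_sub_right, ip_smul_right]
      ring
    linarith
  have hadj : ∀ i j, i ≠ j → C i j ≠ 0 → T (si i) (si i) = T (si j) (si j) := by
    intro i j hij h0
    have h1 : C i j = -1 := (hC.off i j hij).resolve_left h0
    have h2 := hsi i (si j)
    have h3 := hsi j (si i)
    rw [ip_si_si] at h2 h3
    rw [hC.symm j i, h1] at h2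
    rw [h1] at h3
    rw [hTc (si j) (si i)] at h3
    linarith
  have hc : ∃ c : ℤ, ∀ i, T (si i) (si i) = c := by
    rcases Nat.eq_zero_or_pos l with h0 | hpos
    · subst h0
      exact ⟨0, fun i => i.elim0⟩
    · let i0 : Fin l := ⟨0, hpos⟩
      refine ⟨T (si i0) (si i0), ?_⟩
      by_contra hcon
      push Not at hcon
      obtain ⟨j0, hj0⟩ := hcon
      obtain ⟨i, hi, j, hj, hij⟩ := hC.conn {j | T (si j) (si j) = T (si i0) (si i0)}
        ⟨i0, rfl⟩ ⟨j0, hj0⟩
      have hne : i ≠ j := by
        rintro rfl
        exact hj hi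
      apply hj
      have h1 := hadj i j hne hij
      exact h1.symm.trans hi
  obtain ⟨c, hc⟩ := hc
  refine ⟨c, ?_⟩
  intro v w
  have hlin : T v w = ∑ i, v i * T (si i) w := by
    calc T v w = ∑ β : Root C, ∑ i, v i * (ip C β.1 (si i) * ip C β.1 w) := by
          refine Finset.sum_congr rfl fun β _ => ?_
          rw [ip_eq_sum_right β.1 v, Finset.sum_mul]
          refine Finset.sum_congr rfl fun i _ => ?_
          ring
      _ = ∑ i, v i * T (si i) w := by
          rw [Finset.sum_comm]
          refine Finset.sum_congr rfl fun i _ => ?_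
          rw [hT, Finset.mul_sum]
  change 2 * T v w = c * ip C v w
  rw [hlin, ip_comm hC v w, ip_eq_sum_right w v, Finset.mul_sum, Finset.mul_sum]
  refine Finset.sum_congr rfl fun i _ => ?_
  have h1 := hsi i w
  rw [hc i] at h1
  linear_combination (v i) * h1

end Pool.Agent.H86.BCT
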