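import Pool.Agent.H77.BD.Targets

set_option autoImplicit false

namespace Pool.Agent.H86.BCT

open Set Matrix Pool.Agent.H77.BC Pool.Agent.H77.BD

variable {l : ℕ} {C : Matrix (Fin l) (Fin l) ℤ} {F : Type} [Field F]

lemma tri_app_inv {α : Type} (f : Equiv.Perm α) (x : α) : f (f⁻¹ x) = x :=
  f.apply_symm_apply x

lemma tri_inv_app {α : Type} (f : Equiv.Perm α) (x : α) : f⁻¹ (f x) = x :=
  f.symm_apply_apply x

/-- the height -/
def tht (l : ℕ) : (Fin l → ℤ) →+ ℤ where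
  toFun := fun v => ∑ i, v i
  map_zero' := by simp
  map_add' := fun v w => by simp [Finset.sum_add_distrib]

/-- the vectors of height at least `m` -/
def Lv (C : Matrix (Fin l) (Fin l) ℤ) (F : Type) [Field F] (h : (Fin l → ℤ) →+ ℤ) (m : ℤ) :
    AddSubgroup (Sp C F) where
  carrier := {v | (∀ γ : Root C, h γ.1 < m → v.1 γ = 0) ∧ (0 < m → v.2 = 0)}
  zero_mem' := ⟨fun _ _ => rfl, fun _ => rfl⟩
  add_mem' := by
    rintro u v ⟨h1, h2⟩ ⟨h3, h4⟩
    refine ⟨fun γ hγ => ?_, fun hm => ?_⟩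
    · change u.1 γ + v.1 γ = 0
      rw [h1 γ hγ, h3 γ hγ, add_zero]
    · change u.2 + v.2 = 0
      rw [h2 hm, h4 hm, add_zero]
  neg_mem' := by
    rintro u ⟨h1, h2⟩
    refine ⟨fun γ hγ => ?_, fun hm => ?_⟩
    · change - u.1 γ = 0
      rw [h1 γ hγ, neg_zero]
    · change - u.2 = 0
      rw [h2 hm, neg_zero]

lemma Lv_mono (h : (Fin l → ℤ) →+ ℤ) {m n : ℤ} (hmn : m ≤ n) {v : Sp C F} (hv : v ∈ Lv C F h n) :
    v ∈ Lv C F h m :=
  ⟨fun γ hγ => hv.1 γ (lt_of_lt_of_le hγ hmn), fun hm => hv.2 (lt_of_lt_of_le hm hmn)⟩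

/-- unipotent linear maps -/
def PU (C : Matrix (Fin l) (Fin l) ℤ) (h : (Fin l → ℤ) →+ ℤ) (u : Sp C F → Sp C F) : Prop :=
  (∀ a b, u (a + b) = u a + u b) ∧ (∀ (a : F) v, u (a • v) = a • u v) ∧
    ∀ m v, v ∈ Lv C F h m → u v - v ∈ Lv C F h (m + 1)

lemma PU_gen (h : (Fin l → ℤ) →+ ℤ) (β : Root C) (t : F) (hβ : 1 ≤ h β.1) :
    PU C h (Xf β t) := by
  refine ⟨fun a b => Xf_add β t a b, fun a v => Xf_smul β t a v, ?_⟩
  rintro m v ⟨h1, h2⟩
  have hco : ∀ w : Fin l → ℤ, h w < m → co v.1 w = 0 := by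
    intro w hw
    by_cases hr : ip C w w = 2
    · have h3 := co_of v.1 (w := w) (⟨w, hr⟩ : Root C) rfl
      rw [h3]
      exact h1 ⟨w, hr⟩ hw
    · exact co_not v.1 hr
  refine ⟨fun γ hγ => ?_, fun hm => ?_⟩
  · change v.1 γ + t * ((eps C β.1 (γ.1 - β.1) : F) * co v.1 (γ.1 - β.1)) +
      (if γ = β then t ^ 2 * co v.1 (-β.1) - t * pr β.1 v.2 else 0) - v.1 γ = 0
    have h3 : co v.1 (γ.1 - β.1) = 0 := by
      apply hco
      rw [map_sub]
      omega
    rw [h3]
    split_ifs with hγβ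
    · subst hγβ
      have h4 : co v.1 (-γ.1) = 0 := by
        apply hco
        rw [map_neg]
        omega
      have h5 : v.2 = 0 := h2 (by omega)
      rw [h4, h5]
      simp [pr]
    · ring
  · funext i
    change v.2 i - t * co v.1 (-β.1) * hh C F β.1 i - v.2 i = 0
    have h4 : co v.1 (-β.1) = 0 := by
      apply hco
      rw [map_neg]
      omega
    rw [h4]
    ring

lemma PU_mul (h : (Fin l → ℤ) →+ ℤ) (u w : Equiv.Perm (Sp C F)) (hu : PU C h u) (hw : PU C h w) :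
    PU C h (u * w : Equiv.Perm (Sp C F)) := by
  refine ⟨fun a b => ?_, fun a v => ?_, fun m v hv => ?_⟩
  · rw [Equiv.Perm.mul_apply, hw.1, hu.1]
    rfl
  · rw [Equiv.Perm.mul_apply, hw.2.1, hu.2.1]
    rfl
  · rw [Equiv.Perm.mul_apply]
    have h1 := hw.2.2 m v hv
    have h2 : w v ∈ Lv C F h m := by
      have h3 := (Lv C F h m).add_mem (Lv_mono h (by omega : m ≤ m + 1) h1) hv
      rwa [sub_add_cancel] at h3
    have h4 := (Lv C F h (m + 1)).add_mem (hu.2.2 m _ h2) h1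
    rwa [sub_add_sub_cancel] at h4

lemma Lv_top (hC : Cartan C) (h : (Fin l → ℤ) →+ ℤ) :
    ∃ M : ℤ, ∀ v ∈ Lv C F h M, v = 0 := by
  have := finRoot hC
  obtain ⟨M, hM⟩ := (Set.finite_range (fun γ : Root C => h γ.1)).bddAbove
  refine ⟨max (M + 1) 1, ?_⟩
  rintro v ⟨h1, h2⟩
  refine Prod.ext ?_ ?_
  · funext γ
    apply h1
    have h3 : h γ.1 ≤ M := hM ⟨γ, rfl⟩
    exact lt_of_lt_of_le (by omega) (le_max_left _ _)
  · exact h2 (lt_of_lt_of_le one_pos (le_max_right _ _))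

lemma PU_inv (hC : Cartan C) (h : (Fin l → ℤ) →+ ℤ) (u : Equiv.Perm (Sp C F)) (hu : PU C h u) :
    PU C h (u⁻¹ : Equiv.Perm (Sp C F)) := by
  have hadd : ∀ a b, u⁻¹ (a + b) = u⁻¹ a + u⁻¹ b := by
    intro a b
    apply u.injective
    rw [hu.1, tri_app_inv, tri_app_inv, tri_app_inv]
  have hsmul : ∀ (a : F) v, u⁻¹ (a • v) = a • u⁻¹ v := by
    intro a v
    apply u.injective
    rw [hu.2.1, tri_app_inv, tri_app_inv]
  have hzero : u⁻¹ 0 = 0 := by
    have := hsmul 0 0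
    simpa using this
  obtain ⟨M, hM⟩ := Lv_top (F := F) hC h
  have hstep : ∀ m v, v ∈ Lv C F h m → u⁻¹ v = v - u⁻¹ (u v - v) := by
    intro m v _
    have h1 : u⁻¹ (v + (u v - v)) = u⁻¹ v + u⁻¹ (u v - v) := hadd _ _
    rw [add_sub_cancel, tri_inv_app] at h1
    exact eq_sub_of_add_eq h1.symm
  have hind : ∀ n : ℕ, ∀ v ∈ Lv C F h (M - n), u⁻¹ v ∈ Lv C F h (M - n) := by
    intro n
    induction n with
    | zero =>
      intro v hv
      have h1 : v = 0 := hM v (by simpa using hv)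
      rw [h1, hzero]
      exact (Lv C F h _).zero_mem
    | succ n ih =>
      intro v hv
      rw [hstep _ v hv]
      have h1 := hu.2.2 _ v hv
      have e1 : M - ((n + 1 : ℕ) : ℤ) + 1 = M - n := by push_cast; ring
      rw [e1] at h1
      exact (Lv C F h _).sub_mem hv (Lv_mono h (by push_cast; omega) (ih _ h1))
  have hall : ∀ m, ∀ v ∈ Lv C F h m, u⁻¹ v ∈ Lv C F h m := by
    intro m v hv
    rcases le_total m M with hm | hm
    · obtain ⟨n, hn⟩ := Int.eq_ofNat_of_zero_le (sub_nonneg.2 hm)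
      have e1 : m = M - n := by omega
      rw [e1] at hv ⊢
      exact hind n v hv
    · rw [hM v (Lv_mono h hm hv), hzero]
      exact (Lv C F h _).zero_mem
  refine ⟨hadd, hsmul, fun m v hv => ?_⟩
  rw [hstep m v hv, sub_sub_cancel_left]
  exact (Lv C F h _).neg_mem (hall _ _ (hu.2.2 m v hv))

lemma PU_one (h : (Fin l → ℤ) →+ ℤ) : PU C h ((1 : Equiv.Perm (Sp C F)) : Sp C F → Sp C F) := by
  refine ⟨fun a b => rfl, fun a v => rfl, fun m v hv => ?_⟩
  rw [Equiv.Perm.one_apply, sub_self]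
  exact (Lv C F h _).zero_mem

lemma PU_closure (hC : Cartan C) (h : (Fin l → ℤ) →+ ℤ) (p : Root C → Prop)
    (hp : ∀ β, p β → 1 ≤ h β.1) (u : Equiv.Perm (Sp C F))
    (hu : u ∈ Subgroup.closure {g : Equiv.Perm (Sp C F) |
      ∃ (β : Root C) (t : F), p β ∧ ∀ z, g z = Xf β t z}) : PU C h u := by
  induction hu using Subgroup.closure_induction with
  | mem x hx =>
    obtain ⟨β, t, hβ, hz⟩ := hx
    have h1 : (x : Sp C F → Sp C F) = Xf β t := funext hz
    rw [h1]
    exact PU_gen h β t (hp β hβ)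
  | one => exact PU_one h
  | mul x y _ _ hx hy => exact PU_mul h x y hx hy
  | inv x _ hx => exact PU_inv hC h x hx

lemma tht_pos (β : Root C) (hβ : IsPos β) : 1 ≤ tht l β.1 := by
  by_contra hcon
  have h1 : (∑ i, β.1 i) = 0 := by
    apply le_antisymm
    · have : tht l β.1 = ∑ i, β.1 i := rfl
      omega
    · exact Finset.sum_nonneg fun i _ => hβ i
  rw [Finset.sum_eq_zero_iff_of_nonneg (fun i _ => hβ i)] at h1
  apply root_ne_zero β
  funext i
  exact h1 i (Finset.mem_univ i)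

lemma tht_neg (β : Root C) (hβ : IsNeg β) : 1 ≤ (- tht l) β.1 := by
  have h1 : IsPos (ng β) := by
    intro i
    rw [ng_val]
    have := hβ i
    rw [Pi.neg_apply]
    omega
  have h2 := tht_pos _ h1
  rw [ng_val, map_neg] at h2
  exact h2

lemma Lv_Dg (h : (Fin l → ℤ) →+ ℤ) (m : ℤ) (c : Fin l → Fˣ) (v : Sp C F) (hv : v ∈ Lv C F h m) :
    Dg c v ∈ Lv C F h m := by
  refine ⟨fun γ hγ => ?_, fun hm => hv.2 hm⟩
  change (chi C c γ.1 : F) * v.1 γ = 0
  rw [hv.1 γ hγ, mul_zero]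

lemma Dg_inj (c : Fin l → Fˣ) (v : Sp C F) (hv : Dg c v = 0) : v = 0 := by
  refine Prod.ext ?_ ?_
  · funext γ
    have h1 : (chi C c γ.1 : F) * v.1 γ = 0 := congrFun (congrArg Prod.fst hv) γ
    exact (mul_eq_zero.1 h1).resolve_left (Units.ne_zero _)
  · have h2 : (Dg c v).2 = 0 := by rw [hv]; rfl
    exact h2

theorem pf_TRI (_hXEB : T_XEB) (hSPB : T_SPB) : T_TRI := by
  intro l C hC F _ v u c hv hu hvu
  have hU : PU C (tht l) u := PU_closure hC (tht l) IsPos tht_pos u hu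
  have hV : PU C (- tht l) v := PU_closure hC (- tht l) IsNeg tht_neg v hv
  have hV' := PU_inv hC (- tht l) v hV
  have key : ∀ (m : ℤ) (b : Sp C F), b ∈ Lv C F (tht l) m → b ∈ Lv C F (- tht l) (-m) →
      u b = b ∧ Dg c b = b ∧ v⁻¹ b = b := by
    intro m b hb1 hb2
    have h1 := hU.2.2 m b hb1
    have h2 := hV'.2.2 (-m) b hb2
    have h3 : Dg c (u b) = v⁻¹ b := by
      apply v.injective
      rw [hvu, tri_app_inv]
    have h4 : Dg c (u b) = Dg c b + Dg c (u b - b) := by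
      rw [← Dg_add, add_sub_cancel]
    have h5 := Lv_Dg (tht l) (m + 1) c _ h1
    have h6 : v⁻¹ b - b = (Dg c b - b) + Dg c (u b - b) := by
      rw [← h3, h4]
      abel
    have hD1 := (Lv C F (tht l) m).sub_mem (Lv_Dg _ _ c _ hb1) hb1
    have hD2 := (Lv C F (- tht l) (-m)).sub_mem (Lv_Dg _ _ c _ hb2) hb2
    have hneg : ∀ γ : Root C, (- tht l) γ.1 = - tht l γ.1 := fun γ => rfl
    have h7 : Dg c b - b = 0 := by
      refine Prod.ext ?_ ?_
      · funext γ
        rcases lt_trichotomy (tht l γ.1) m with hm | hm | hm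
        · exact hD1.1 γ hm
        · have e1 := congrFun (congrArg Prod.fst h6) γ
          have e2 : (v⁻¹ b - b).1 γ = 0 := h2.1 γ (by rw [hneg]; omega)
          have e3 : (Dg c (u b - b)).1 γ = 0 := h5.1 γ (by omega)
          rw [e2] at e1
          change 0 = (Dg c b - b).1 γ + (Dg c (u b - b)).1 γ at e1
          rw [e3, add_zero] at e1
          exact e1.symm
        · exact hD2.1 γ (by rw [hneg]; omega)
      · rcases lt_trichotomy m 0 with hm | hm | hm
        · exact hD2.2 (by omega)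
        · have e1 := congrArg Prod.snd h6
          have e2 : (v⁻¹ b - b).2 = 0 := h2.2 (by omega)
          have e3 : (Dg c (u b - b)).2 = 0 := h5.2 (by omega)
          rw [e2] at e1
          change 0 = (Dg c b - b).2 + (Dg c (u b - b)).2 at e1
          rw [e3, add_zero] at e1
          exact e1.symm
        · exact hD1.2 (by omega)
    rw [h7, zero_add] at h6
    have h8 : Dg c (u b - b) = 0 := by
      refine Prod.ext ?_ ?_
      · funext γ
        rcases lt_or_ge (tht l γ.1) (m + 1) with hm | hm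
        · exact h5.1 γ hm
        · rw [← h6]
          exact h2.1 γ (by rw [hneg]; omega)
      · rcases lt_or_ge 0 (m + 1) with hm | hm
        · exact h5.2 hm
        · rw [← h6]
          exact h2.2 (by omega)
    rw [h8] at h6
    exact ⟨sub_eq_zero.1 (Dg_inj c _ h8), sub_eq_zero.1 h7, sub_eq_zero.1 h6⟩
  have heb : ∀ γ : Root C, u (eb F γ) = eb F γ ∧ Dg c (eb F γ) = eb F γ ∧
      v⁻¹ (eb F γ) = eb F γ := by
    intro γ
    apply key (tht l γ.1)
    · refine ⟨fun δ hδ => ?_, fun _ => rfl⟩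
      change (if δ = γ then (1 : F) else 0) = 0
      rw [if_neg]
      rintro rfl
      exact lt_irrefl _ hδ
    · refine ⟨fun δ hδ => ?_, fun _ => rfl⟩
      change (if δ = γ then (1 : F) else 0) = 0
      rw [if_neg]
      rintro rfl
      exact lt_irrefl _ hδ
  have hhb : ∀ h : Fin l → F, u (hb h) = hb (C := C) h ∧ Dg c (hb h) = hb (C := C) h ∧
      v⁻¹ (hb h) = hb (C := C) h := by
    intro h
    apply key 0
    · exact ⟨fun _ _ => rfl, fun h0 => absurd h0 (lt_irrefl _)⟩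
    · exact ⟨fun _ _ => rfl, fun h0 => absurd h0 (by norm_num)⟩
  have hDs : ∀ (a : F) (w : Sp C F), Dg c (a • w) = a • Dg c w := by
    intro a w
    refine Prod.ext ?_ rfl
    funext γ
    change (chi C c γ.1 : F) * (a * w.1 γ) = a * ((chi C c γ.1 : F) * w.1 γ)
    ring
  have fu := hSPB hC u id hU.1 hU.2.1 (fun _ _ => rfl) (fun _ _ => rfl) (fun γ => (heb γ).1)
    (fun h => (hhb h).1)
  have fD := hSPB hC (Dg c) id (Dg_add c) hDs (fun _ _ => rfl) (fun _ _ => rfl)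
    (fun γ => (heb γ).2.1) (fun h => (hhb h).2.1)
  have fv := hSPB hC (v⁻¹ : Equiv.Perm (Sp C F)) id hV'.1 hV'.2.1 (fun _ _ => rfl)
    (fun _ _ => rfl) (fun γ => (heb γ).2.2) (fun h => (hhb h).2.2)
  refine ⟨fun z => ?_, fD, fu⟩
  have h1 := fv z
  have h2 : v (v⁻¹ z) = v z := by rw [h1]; rfl
  rw [tri_app_inv] at h2
  exact h2.symm

end Pool.Agent.H86.BCT
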